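import Pool.Agent.Helper7.J4

/-!
Invariant bilinear forms are compatible with operators which commute with all de Rham-Betti
morphisms.
-/

namespace Pool.Agent.Helper7.HU

open Module NumberField LieAlgebra

attribute [local instance 100] LieRing.ofAssociativeRing

open Pool.Agent.GPC (Emb IsOdd)
open Pool.Agent.Helper7

set_option linter.unusedSectionVars false

section family

variable {I : Type} [Fintype I] [DecidableEq I] (n : I → ℕ)
  {κ : I → Type} [∀ i, Fintype (κ i)] [∀ i, DecidableEq (κ i)] {ϖ : ℂ}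
  (P : ∀ i, PData (κ i) ϖ)

/-- operators which commute with all de Rham-Betti morphisms and which are compatible with the
polarisations -/
structure IsMT (H : GG κ) : Prop where
  comm : ∀ i j (f : (κ i → ℂ) →ₗ[ℂ] (κ j → ℂ)), IsDRB (P i) (P j) f →
    ∀ v, H.1 j (f v) = f (H.1 i v)
  pol : ∀ i u v, (P i).ψ (H.1 i u) v + (P i).ψ u (H.1 i v) = H.2 * (P i).ψ u v

variable {k : ℕ} (α : MultilinearMap ℂ (fun _ : Fin (2 * k) => HW κ n) ℂ)
  (hϖ : ϖ ≠ 0)
  (hB : ∀ v : Fin (2 * k) → HW κ n, (∀ r, IsRatP n P (v r)) → ∃ q : ℚ, α v = ϖ ^ k * q)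
  (hA : ∀ v : Fin (2 * k) → HW κ n, (∀ r i m j, IsAlgebraic ℚ (v r i m j)) →
      IsAlgebraic ℚ (α v))

include hϖ hB hA in
/-- invariant bilinear forms on two factors -/
lemma bilin_MT {H : GG κ} (hH : IsMT P H) (i j : I) (β : (κ i → ℂ) →ₗ[ℂ] (κ j → ℂ) →ₗ[ℂ] ℂ)
    (hβ : ∀ X, IsInv n P α X → ∀ u v, β (X.1 i u) v + β u (X.1 j v) = X.2 * β u v)
    (u : κ i → ℂ) (v : κ j → ℂ) : β (H.1 i u) v + β u (H.1 j v) = H.2 * β u v := by
  obtain ⟨m, c, f, hf, hβf⟩ := bilin_of_inv n P α hϖ hB hA i j β hβ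
  rw [hβf, hβf, hβf, ← Finset.sum_add_distrib, Finset.mul_sum]
  refine Finset.sum_congr rfl fun l _ => ?_
  have h1 := hH.pol j (f l u) v
  rw [hH.comm i j (f l) (hf l) u] at h1
  linear_combination c l * h1

include hϖ hB hA in
/-- invariant bilinear forms -/
theorem invB_MT {H : GG κ} (hH : IsMT P H) (β : HW κ n →ₗ[ℂ] HW κ n →ₗ[ℂ] ℂ)
    (hβ : β ∈ invB n P α) (u v : HW κ n) :
    β (lift n H.1 u) v + β u (lift n H.1 v) = H.2 * β u v := by
  have h0 : ∀ i m j m' (a : κ i → ℂ) (b : κ j → ℂ),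
      β (lift n H.1 (slotL n i m a)) (slotL n j m' b) +
        β (slotL n i m a) (lift n H.1 (slotL n j m' b)) =
      H.2 * β (slotL n i m a) (slotL n j m' b) := by
    intro i m j m' a b
    rw [lift_slot, lift_slot]
    exact bilin_MT n P α hϖ hB hA hH i j (β.compl₁₂ (slotL n i m) (slotL n j m'))
      (fun X hX u v => by
        have h1 := hβ X hX (slotL n i m u) (slotL n j m' v)
        rw [lift_slot, lift_slot] at h1
        exact h1) a b
  have h1 : ∀ i m (a : κ i → ℂ) (v : HW κ n),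
      β (lift n H.1 (slotL n i m a)) v + β (slotL n i m a) (lift n H.1 v) =
        H.2 * β (slotL n i m a) v := by
    intro i m a v
    have e : ((β (lift n H.1 (slotL n i m a)) + (β (slotL n i m a)) ∘ₗ lift n H.1 -
        H.2 • β (slotL n i m a) : HW κ n →ₗ[ℂ] ℂ)) v = 0 := by
      rw [← sum_slot n v, map_sum]
      refine Finset.sum_eq_zero fun j _ => ?_
      rw [map_sum]
      refine Finset.sum_eq_zero fun m' _ => ?_
      rw [LinearMap.sub_apply, LinearMap.add_apply, LinearMap.comp_apply, LinearMap.smul_apply,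
        smul_eq_mul, h0, sub_self]
    rw [LinearMap.sub_apply, LinearMap.add_apply, LinearMap.comp_apply, LinearMap.smul_apply,
      smul_eq_mul] at e
    exact sub_eq_zero.mp e
  have e : ((β.flip v ∘ₗ lift n H.1 + β.flip (lift n H.1 v) -
      H.2 • β.flip v : HW κ n →ₗ[ℂ] ℂ)) u = 0 := by
    rw [← sum_slot n u, map_sum]
    refine Finset.sum_eq_zero fun i _ => ?_
    rw [map_sum]
    refine Finset.sum_eq_zero fun m _ => ?_
    rw [LinearMap.sub_apply, LinearMap.add_apply, LinearMap.comp_apply, LinearMap.smul_apply,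
      smul_eq_mul, LinearMap.flip_apply, LinearMap.flip_apply, LinearMap.flip_apply, h1, sub_self]
  rw [LinearMap.sub_apply, LinearMap.add_apply, LinearMap.comp_apply, LinearMap.smul_apply,
    smul_eq_mul, LinearMap.flip_apply, LinearMap.flip_apply, LinearMap.flip_apply] at e
  exact sub_eq_zero.mp e

end family

end Pool.Agent.Helper7.HU
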