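import Pool.Agent.Helper8.TPrime
import Pool.Agent.Helper7.HU.Hod
import Pool.Agent.Helper7.J9
import Pool.Agent.Helper8.D.LinkDefs
import Pool.Agent.Helper8.H.Types

/-!
Grothendieck classes are Hodge classes, for products of factors of `GL_2`-type, of real type of
relative dimension two, and of CM type, provided the weights are balanced.
-/

set_option linter.unusedSectionVars false

namespace Pool.Agent.Helper7.HU

open Module NumberField LieAlgebra Pool.Agent.Helper7 Pool.Agent.Helper24 Pool.Agent.GPC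
open Pool.Agent.Helper8.D (hG hG_sym hG_idem)

attribute [local instance 100] LieRing.ofAssociativeRing

section setup

variable {I : Type} [Fintype I] (A : I → AbVar) (n : I → ℕ) (K : I → Type)
  [∀ i, Field (K i)] [∀ i, NumberField (K i)]

/-- adapted data for the factors of real type, `i ∈ S ∪ U`, and of CM type -/
structure IsSys (S U : Finset I) (F : ∀ i, FS (pData (A i)) (K i)) : Prop where
  left : ∀ i, (F i).isLeft ↔ (i ∈ S ∨ i ∈ U)
  rk : ∀ i, (i ∈ S ∨ i ∈ U) → finrank ℚ (K i) * (F i).rk = 2 * (A i).g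

theorem exists_sys (S U T : Finset I)
    (hST : ∀ i, i ∈ S ∨ i ∈ U ∨ i ∈ T) (hS : ∀ i ∈ S, IsRMType (A i) (K i))
    (hU : ∀ i ∈ U, IsRelTwoType (A i) (K i)) (hC : ∀ i ∈ T, IsCMType (A i) (K i)) :
    ∃ F : ∀ i, FS (pData (A i)) (K i), IsSys A K S U F := by
  classical
  have hR : ∀ i, i ∈ S ∨ i ∈ U → IsRealType (A i) (K i) := by
    rintro i (hi | hi)
    · obtain ⟨h1, ⟨R⟩⟩ := hS i hi
      exact ⟨h1, ⟨⟨R.ρ, R.one, R.mul, R.add, R.endo, R.rosati, R.centralizer⟩⟩⟩
    · exact (hU i hi).1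
  have hNT : ∀ i, ¬ (i ∈ S ∨ i ∈ U) → i ∈ T := fun i hi => by
    rcases hST i with h1 | h1 | h1
    · exact absurd (Or.inl h1) hi
    · exact absurd (Or.inr h1) hi
    · exact h1
  have hF : ∀ i, ∃ F : FS (pData (A i)) (K i), (F.isLeft ↔ (i ∈ S ∨ i ∈ U)) ∧
      ((i ∈ S ∨ i ∈ U) → finrank ℚ (K i) * F.rk = 2 * (A i).g) := by
    intro i
    by_cases hi : i ∈ S ∨ i ∈ U
    · obtain ⟨F, hF⟩ := nonempty_RF (A i) (K i) (Classical.choice (hR i hi).2)
      exact ⟨.inl F, ⟨fun _ => hi, fun _ => rfl⟩, fun _ => hF⟩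
    · obtain ⟨h1, ⟨C⟩⟩ := hC i (hNT i hi)
      exact ⟨.inr ⟨cmFac (A i) (K i) C
        (fun l hl hl0 => (A i).periods_not_proportional l hl hl0), fun h => h⟩,
        ⟨fun h => by simp at h, fun h => absurd h hi⟩, fun h => absurd h hi⟩
  choose F hFl hFr using hF
  exact ⟨F, hFl, hFr⟩

variable [DecidableEq I]

lemma isMT_hG : IsMT (fun i => pData (A i)) (hG A) where
  comm _ _ f hf v := (hod_comm f hf v).symm
  pol i u v := (hG_sym A i).pol u v

lemma hB_of {k : ℕ} {α : Form A n (2 * k)} (hα : IsGrothendieck A n k α) :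
    ∀ v : Fin (2 * k) → HW (fun i => Fin (A i).g ⊕ Fin (A i).g) n,
      (∀ r, IsRatP n (fun i => pData (A i)) (v r)) →
      ∃ q : ℚ, α v = (2 * Real.pi * Complex.I) ^ k * q := by
  intro v hv
  apply hα.2
  intro r i m
  exact (mem_pData_Q _ _).mp (hv r i m)

end setup

end Pool.Agent.Helper7.HU
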