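import Pool.Agent.Helper7.HU.RealSmall
import Pool.Agent.Helper8.H.Main2
import Pool.Agent.Helper8.H.HCond2

/-!
Slot functions all of whose labels are of real type with spaces of dimension two or four.
-/

namespace Pool.Agent.Helper7.HU

open Module NumberField LieAlgebra

attribute [local instance 100] LieRing.ofAssociativeRing

open Pool.Agent.GPC (Emb IsOdd)
open Pool.Agent.Helper7
open Pool.Agent.Helper8

set_option linter.unusedSectionVars false

section family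

variable {I : Type} [Fintype I] [DecidableEq I] {n : I → ℕ}
  {κ : I → Type} [∀ i, Fintype (κ i)] [∀ i, DecidableEq (κ i)] {ϖ : ℂ}
  {P : ∀ i, PData (κ i) ϖ}
  {K : I → Type} [∀ i, Field (K i)] [∀ i, NumberField (K i)]
  {F : ∀ i, FS (P i) (K i)}
  {k : ℕ} (α : MultilinearMap ℂ (fun _ : Fin (2 * k) => HW κ n) ℂ)
  (hϖ : ϖ ≠ 0)
  (hB : ∀ v : Fin (2 * k) → HW κ n, (∀ r, IsRatP n P (v r)) → ∃ q : ℚ, α v = ϖ ^ k * q)
  (hA : ∀ v : Fin (2 * k) → HW κ n, (∀ r i m j, IsAlgebraic ℚ (v r i m j)) →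
      IsAlgebraic ℚ (α v))

include hϖ hB hA in
theorem real_PS (hk : IsKilling ℂ (LL n P F α)) (p : Principal (LL n P F α))
    (hrk : ∀ i, (F i).isLeft → (F i).rk = 2 ∨ (F i).rk = 4)
    (hN : ∀ a b : At n K, pl n a ≠ pl n b → IsPl n P F α (pl n a) 4 →
      IsPl n P F α (pl n b) 4 → NoPair n P F α (pl n a) (pl n b))
    (hA' : ∀ b : At n K, IsPl n P F α (pl n b) 4 →
      (n b.1 ≤ 1 ∧ ∀ S : Finset (At n K), (∀ a ∈ S, IsPl n P F α (pl n a) 2 ∧
        KerLe n P F α (pl n b) (pl n a)) → S.card ≤ 2) ∨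
      (n b.1 ≤ 2 ∧ ∀ a : At n K, IsPl n P F α (pl n a) 2 →
        ¬ KerLe n P F α (pl n b) (pl n a)))
    {R : Type*} [DecidableEq R] (q : R → At n K) (hq : ∀ r, (F (q r).1).isLeft)
    (T : Finset R) (Φ : (R → HW κ n) → ℂ) (hev : Even T.card)
    (hΦ : SF (symG n P α) (EE n P F) q T Φ) : Φ ∈ PS (invB n P α) T := by
  classical
  have hirr : Irr n P F α := fun s hs hn => Vs_irr n P F α hϖ hB hA s hs hn
  have hdim : ∀ s : Emb K, (F s.1).isLeft → Nontrivial (Vs n P F α s) →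
      IsPl n P F α s 2 ∨ IsPl n P F α s 4 := by
    intro s hs _
    rcases hrk s.1 hs with h | h
    · exact Or.inl ⟨hs, by rw [finrank_Vs s hs, h]⟩
    · exact Or.inr ⟨hs, by rw [finrank_Vs s hs, h]⟩
  rw [← invF_symG]
  refine peel_all2 (fun b => IsPl n P F α (pl n b) 4) (fun b hb => ?_)
    (fun T Φ hev hΦ hT => ?_) T Φ hev hΦ
  · rcases hA' b hb with ⟨h2, h3⟩ | ⟨h2, h3⟩
    · left
      exact exists_big hk hirr p hdim b hb h2 (fun s hs h4 => hN _ _ (Ne.symm hs) hb h4) h3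
    · right
      obtain ⟨i, m, σ⟩ := b
      obtain ⟨D, h4, h5, h6⟩ := exists_fam hk hirr p hdim i σ m hb
        (fun s hs h4 => hN _ _ (Ne.symm hs) hb h4) h3
      exact ⟨D, h4 m, h5.trans h2, h6⟩
  · rw [invF_symG]
    refine real_fft n P F α (fun i => (F i).isLeft ∧ (F i).rk = 2) hϖ hB hA hk p
      (fun s hs hl => by rw [finrank_Vs s hl, hs.2]) (fun i hi => hi.1) hev hΦ (fun r hr => ?_)
    refine ⟨hq r, ?_⟩
    rcases hrk _ (hq r) with h | h
    · exact h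
    · exact absurd ⟨hq r, by rw [finrank_Vs (pl n (q r)) (hq r)]; exact h⟩ (hT r hr)

end family

end Pool.Agent.Helper7.HU
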