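import Pool.Agent.Helper7.HU.Hod
import Pool.Agent.Helper7.HU.RealPS
import Pool.Agent.Helper7.L8

/-!
The action of the Hodge element on the component of an invariant form at a label.
-/

set_option linter.unusedSectionVars false

namespace Pool.Agent.Helper7.HU

open Module NumberField LieAlgebra

attribute [local instance 100] LieRing.ofAssociativeRing

open Pool.Agent.GPC (Emb)
open Pool.Agent.Helper7
open Pool.Agent.Helper8 (Symp Principal PS SF symG mem_of_PS invF invF_symG IsPl NoPair KerLe)

section mono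

variable {R W : Type*} [DecidableEq R] [AddCommGroup W] [Module ℂ W]

lemma PP_mono {S S' : Set (W →ₗ[ℂ] W →ₗ[ℂ] ℂ)} (h : S ⊆ S') {T : Finset R} {Φ : (R → W) → ℂ}
    (hΦ : PP S T Φ) : PP S' T Φ := by
  induction hΦ with
  | nil => exact PP.nil
  | cons r r' β hβ _ hr hr' hne ih => exact PP.cons r r' β (h hβ) ih hr hr' hne

end mono

section family

variable {I : Type} [Fintype I] [DecidableEq I] (n : I → ℕ)
  {κ : I → Type} [∀ i, Fintype (κ i)] [∀ i, DecidableEq (κ i)] {ϖ : ℂ}
  (P : ∀ i, PData (κ i) ϖ)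
  {K : I → Type} [∀ i, Field (K i)] [∀ i, NumberField (K i)]
  (F : ∀ i, FS (P i) (K i))
  {k : ℕ} (α : (HW κ n) [⋀^Fin (2 * k)]→ₗ[ℂ] ℂ)
  (a : Fin (2 * k) → At n K) {m : ℕ} (x : Fin m → Fin (2 * k))

/-- the vector with arbitrary components at the labels in the slots of real type, and with the
eigenvectors in the other slots -/
noncomputable def wS (v : Fin m → HW κ n) : Fin (2 * k) → HW κ n :=
  Function.extend x (fun j => EE n P F (a (x j)) (v j)) (fun r => evS n P F (a r))

variable (hx : Function.Injective x)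

include hx in
lemma wS_update (v : Fin m → HW κ n) (j : Fin m) (u : HW κ n) :
    wS n P F a x (Function.update v j u) =
      Function.update (wS n P F a x v) (x j) (EE n P F (a (x j)) u) := by
  unfold wS
  rw [← extend_update' x hx]
  congr 1
  funext b
  by_cases hb : b = j
  · subst hb
    rw [Function.update_self, Function.update_self]
  · rw [Function.update_of_ne hb, Function.update_of_ne hb]

include hx in
lemma wS_self (v : Fin m → HW κ n) (j : Fin m) :
    wS n P F a x v (x j) = EE n P F (a (x j)) (v j) := by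
  unfold wS
  rw [hx.extend_apply]

lemma wS_out (v : Fin m → HW κ n) (r : Fin (2 * k)) (hr : ∀ j, x j ≠ r) :
    wS n P F a x v r = evS n P F (a r) := by
  unfold wS
  rw [Function.extend_apply' _ _ _ (by rintro ⟨j, hj⟩; exact hr j hj)]

lemma EE_self (t : At n K) (u : HW κ n) : EE n P F t (EE n P F t u) = EE n P F t u := by
  classical
  rw [EE_EE, if_pos rfl]

include hx in
/-- the slot function of the slots of real type -/
lemma sf_wS (hxl : ∀ j, (F (a (x j)).1).isLeft)
    (hxc : ∀ r, (∀ j, x j ≠ r) → ¬ (F (a r).1).isLeft)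
    (hcm : ∀ X, IsInv n P (toM' n α) X →
      2 * ∑ r ∈ (Finset.univ.image x)ᶜ, chiC P F (pl n (a r)) X =
        ((Finset.univ.image x)ᶜ : Finset (Fin (2 * k))).card * X.2) :
    SF (symG n P (toM' n α)) (EE n P F) (fun j => a (x j)) (Finset.univ : Finset (Fin m))
      (fun v => α (wS n P F a x v)) := by
  have hcard : (((Finset.univ.image x)ᶜ : Finset (Fin (2 * k))).card : ℂ) = 2 * k - m := by
    rw [Finset.card_compl, Finset.card_image_of_injective _ hx, Finset.card_univ, Fintype.card_fin,
      Fintype.card_fin, Nat.cast_sub]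
    · push_cast; rfl
    · have := Fintype.card_le_of_injective x hx
      rwa [Fintype.card_fin, Fintype.card_fin] at this
  refine ⟨?_, ?_, ?_, ?_, ?_, ?_⟩
  · intro v v' h
    rw [show v = v' from funext fun j => h j (Finset.mem_univ j)]
  · intro v j _ y z
    beta_reduce
    rw [wS_update n P F a x hx, wS_update n P F a x hx, wS_update n P F a x hx, map_add]
    exact α.map_update_add _ _ _ _
  · intro v j _ c y
    beta_reduce
    rw [wS_update n P F a x hx, wS_update n P F a x hx, map_smul]
    exact α.map_update_smul _ _ _ _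
  · rintro _ ⟨X, hX, rfl⟩ v
    beta_reduce
    have hmem : ∀ j, EE n P F (a (x j)) (v j) ∈ VR n P F := fun j =>
      EE_mem_W2 n P F _ (a (x j)) (hxl j) (v j)
    have h1 := sum_slots n P F α a x hxc hx X hX (fun j => ⟨EE n P F (a (x j)) (v j), hmem j⟩)
    have h2 : Function.extend x (fun b => (((⟨EE n P F (a (x b)) (v b), hmem b⟩ : VR n P F)) :
        HW κ n)) (fun r => evS n P F (a r)) = wS n P F a x v := rfl
    rw [h2] at h1
    have h3 : ∑ j, α (wS n P F a x (Function.update v j (lift n X.1 (v j)))) =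
        ∑ j, α (Function.update (wS n P F a x v) (x j)
          (lift n X.1 (EE n P F (a (x j)) (v j)))) := by
      refine Finset.sum_congr rfl fun j _ => ?_
      rw [wS_update n P F a x hx, EE_lift n P F (toM' n α) X hX]
    rw [h3, Finset.card_univ, Fintype.card_fin]
    have h4 := hcm X hX
    rw [hcard] at h4
    linear_combination 2 * h1 - α (wS n P F a x v) * h4
  · intro j _ v
    beta_reduce
    rw [wS_update n P F a x hx, EE_self, ← wS_self n P F a x hx v j, Function.update_eq_self]
  · intro j _ l _ hne haa v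
    beta_reduce
    have h1 : wS n P F a x (v ∘ Equiv.swap j l) =
        (wS n P F a x v) ∘ Equiv.swap (x j) (x l) := by
      funext r
      rw [Function.comp_apply]
      by_cases hr : ∃ b, x b = r
      · obtain ⟨b, rfl⟩ := hr
        rw [wS_self n P F a x hx, Function.comp_apply]
        by_cases hb : b = j
        · subst hb
          rw [Equiv.swap_apply_left, Equiv.swap_apply_left, wS_self n P F a x hx, ← haa]
        · by_cases hb' : b = l
          · subst hb'
            rw [Equiv.swap_apply_right, Equiv.swap_apply_right, wS_self n P F a x hx, haa]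
          · rw [Equiv.swap_apply_of_ne_of_ne hb hb',
              Equiv.swap_apply_of_ne_of_ne (hx.ne hb) (hx.ne hb'), wS_self n P F a x hx]
      · have hr' : ∀ b, x b ≠ r := fun b hb => hr ⟨b, hb⟩
        rw [Equiv.swap_apply_of_ne_of_ne (Ne.symm (hr' j)) (Ne.symm (hr' l)),
          wS_out n P F a x _ r hr', wS_out n P F a x _ r hr']
    rw [h1]
    exact α.map_swap _ (hx.ne hne)

/-- commutation of a label projector with an operator compatible with the field actions -/
lemma EE_comm (H : GG κ) (hH : IsMT P H) (t : At n K) (u : HW κ n) :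
    EE n P F t (lift n H.1 u) = lift n H.1 (EE n P F t u) := by
  rw [EE_apply, EE_apply, lift_slot, lift_apply]
  rw [comm_proj (F t.1).ρ (H.1 t.1) (fun x v => hH.comm t.1 t.1 _ ((F t.1).hρ x) v)]

lemma lift_evS' (H : GG κ) (hH : IsMT P H) (t : At n K) (ht : ¬ (F t.1).isLeft) :
    lift n H.1 (evS n P F t) = chiC P F (pl n t) H • evS n P F t := by
  rw [evS, lift_slot, (F t.1).ev_act ht t.2.2 (H.1 t.1) H.2
    (fun x v => hH.comm t.1 t.1 _ ((F t.1).hρ x) v), map_smul]
  rfl

lemma chiC_left (H : GG κ) (s : Emb K) (hs : (F s.1).isLeft) : chiC P F s H = H.2 / 2 := by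
  have key : ∀ (f : FS (P s.1) (K s.1)), f.isLeft → f.chi s.2 (H.1 s.1) H.2 = H.2 / 2 := by
    intro f hf
    cases f with
    | inl F' => rfl
    | inr F' => simp at hf
  exact key (F s.1) hs

variable (hϖ : ϖ ≠ 0)
  (hB : ∀ v : Fin (2 * k) → HW κ n, (∀ r, IsRatP n P (v r)) → ∃ q : ℚ, α v = ϖ ^ k * q)
  (hA : ∀ v : Fin (2 * k) → HW κ n, (∀ r i m j, IsAlgebraic ℚ (v r i m j)) →
      IsAlgebraic ℚ (α v))

include hx hϖ hB hA in
/-- the action on a vector with eigenvectors in the slots of CM type -/
lemma act_wS (hk : IsKilling ℂ (LL n P F (toM' n α))) (p : Principal (LL n P F (toM' n α)))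
    (hrk : ∀ i, (F i).isLeft → (F i).rk = 2 ∨ (F i).rk = 4)
    (hN : ∀ a b : At n K, pl n a ≠ pl n b → IsPl n P F (toM' n α) (pl n a) 4 →
      IsPl n P F (toM' n α) (pl n b) 4 → NoPair n P F (toM' n α) (pl n a) (pl n b))
    (hA' : ∀ b : At n K, IsPl n P F (toM' n α) (pl n b) 4 →
      (n b.1 ≤ 1 ∧ ∀ S : Finset (At n K), (∀ a ∈ S, IsPl n P F (toM' n α) (pl n a) 2 ∧
        KerLe n P F (toM' n α) (pl n b) (pl n a)) → S.card ≤ 2) ∨
      (n b.1 ≤ 2 ∧ ∀ a : At n K, IsPl n P F (toM' n α) (pl n a) 2 →
        ¬ KerLe n P F (toM' n α) (pl n b) (pl n a)))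
    {H : GG κ} (hH : IsMT P H) (hxl : ∀ j, (F (a (x j)).1).isLeft)
    (hxc : ∀ r, (∀ j, x j ≠ r) → ¬ (F (a r).1).isLeft) (v : Fin m → HW κ n) :
    ∑ r, α (Function.update (wS n P F a x v) r (lift n H.1 (wS n P F a x v r))) =
      (∑ r, chiC P F (pl n (a r)) H) * α (wS n P F a x v) := by
  classical
  have hout : ∀ r ∈ (Finset.univ.image x)ᶜ, ∀ j, x j ≠ r := by
    intro r hr j hj
    rw [Finset.mem_compl, Finset.mem_image] at hr
    exact hr ⟨j, Finset.mem_univ _, hj⟩
  -- the slots of real type
  have h1 : ∑ r ∈ Finset.univ.image x,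
      α (Function.update (wS n P F a x v) r (lift n H.1 (wS n P F a x v r))) =
      ∑ j, α (wS n P F a x (Function.update v j (lift n H.1 (v j)))) := by
    rw [Finset.sum_image (fun a _ c _ h => hx h)]
    refine Finset.sum_congr rfl fun j _ => ?_
    rw [wS_update n P F a x hx, wS_self n P F a x hx, EE_comm n P F H hH]
  -- the slots of CM type
  have h2 : ∀ r ∈ (Finset.univ.image x)ᶜ,
      α (Function.update (wS n P F a x v) r (lift n H.1 (wS n P F a x v r))) =
      chiC P F (pl n (a r)) H * α (wS n P F a x v) := by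
    intro r hr
    have h3 := wS_out n P F a x v r (hout r hr)
    rw [h3, lift_evS' n P F H hH (a r) (hxc r (hout r hr)), AlternatingMap.map_update_smul, ← h3,
      Function.update_eq_self, smul_eq_mul]
  have h3 : ∑ j, α (wS n P F a x (Function.update v j (lift n H.1 (v j)))) =
      (m * H.2 / 2) * α (wS n P F a x v) := by
    by_cases h0 : ∀ u, α (wS n P F a x u) = 0
    · rw [h0, mul_zero]
      exact Finset.sum_eq_zero fun j _ => h0 _
    push Not at h0
    obtain ⟨u, hu⟩ := h0
    have hmem : ∀ (v : Fin m → HW κ n) j, EE n P F (a (x j)) (v j) ∈ VR n P F := fun v j =>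
      EE_mem_W2 n P F _ (a (x j)) (hxl j) (v j)
    have hres : ∀ v : Fin m → HW κ n, resA α (VR n P F) x hx (fun r => evS n P F (a r))
        (fun j => ⟨EE n P F (a (x j)) (v j), hmem v j⟩) = α (wS n P F a x v) := fun v => rfl
    have hmev : Even m := by
      by_contra hodd
      rw [Nat.not_even_iff_odd] at hodd
      have h4 := real_odd n P F (toM' n α) hϖ hB hA hk p hodd
        (resA α (VR n P F) x hx (fun r => evS n P F (a r))) (resA_inv n P F α a x hx hxc)
        (fun j => ⟨EE n P F (a (x j)) (u j), hmem u j⟩)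
      rw [hres] at h4
      exact hu h4
    have hw := fun X hX => cm_weight n P F α a x hx hk hxc
      (fun j => ⟨EE n P F (a (x j)) (u j), hmem u j⟩) (by rw [hres]; exact hu) X hX
    have hSF := sf_wS n P F α a x hx hxl hxc hw
    have hPS := real_PS (toM' n α) hϖ hB hA hk p hrk hN hA' (fun j => a (x j)) hxl Finset.univ _
      (by rw [Finset.card_univ, Fintype.card_fin]; exact hmev) hSF
    have hPS' : (fun v => α (wS n P F a x v)) ∈
        PS (invF {(lift n H.1, H.2)}) (Finset.univ : Finset (Fin m)) := by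
      refine Submodule.span_mono (fun Φ hΦ => ?_) hPS
      exact PP_mono (fun β hβ X hX u v => by
        rw [Set.mem_singleton_iff] at hX
        subst hX
        exact invB_MT n P (toM' n α) hϖ hB hA hH β hβ u v) hΦ
    have h4 := PS.inv hPS' (lift n H.1, H.2) rfl v
    rw [Finset.card_univ, Fintype.card_fin] at h4
    beta_reduce at h4
    linear_combination h4 / 2
  have hcard : ((Finset.univ.image x : Finset (Fin (2 * k))).card : ℂ) = m := by
    rw [Finset.card_image_of_injective _ hx, Finset.card_univ, Fintype.card_fin]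
  have h5 : ∑ r ∈ Finset.univ.image x, chiC P F (pl n (a r)) H = m * H.2 / 2 := by
    have h6 : ∀ r ∈ Finset.univ.image x, chiC P F (pl n (a r)) H = H.2 / 2 := by
      intro r hr
      obtain ⟨j, -, rfl⟩ := Finset.mem_image.mp hr
      exact chiC_left P F H (pl n (a (x j))) (hxl j)
    rw [Finset.sum_congr rfl h6, Finset.sum_const, nsmul_eq_mul, hcard]
    ring
  rw [← Finset.sum_add_sum_compl (Finset.univ.image x), h1, h3,
    Finset.sum_congr rfl h2, ← Finset.sum_mul, ← Finset.sum_add_sum_compl (Finset.univ.image x)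
      (fun r => chiC P F (pl n (a r)) H), h5]
  ring

/-- enumeration of the slots of real type -/
lemma exists_slots : ∃ (m : ℕ) (x : Fin m → Fin (2 * k)), Function.Injective x ∧
    (∀ j, (F (a (x j)).1).isLeft) ∧ (∀ r, (∀ j, x j ≠ r) → ¬ (F (a r).1).isLeft) := by
  classical
  obtain ⟨Tr, hTr⟩ : ∃ Tr : Finset (Fin (2 * k)),
    Tr = Finset.univ.filter (fun r => (F (a r).1).isLeft) := ⟨_, rfl⟩
  refine ⟨Tr.card, fun j => (Tr.equivFin.symm j : Fin (2 * k)),
    fun a c h => Tr.equivFin.symm.injective (Subtype.ext h), fun j => ?_, fun r hr h => ?_⟩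
  · have h0 : ∀ r ∈ Tr, (F (a r).1).isLeft := by
      intro r hr
      rw [hTr] at hr
      exact (Finset.mem_filter.mp hr).2
    exact h0 _ (Tr.equivFin.symm j).2
  · have h1 : r ∈ Tr := by rw [hTr]; exact Finset.mem_filter.mpr ⟨Finset.mem_univ _, h⟩
    refine hr (Tr.equivFin ⟨r, h1⟩) ?_
    beta_reduce
    rw [Equiv.symm_apply_apply]

include hϖ hB hA in
/-- the action on the component at a label -/
theorem label_act (hk : IsKilling ℂ (LL n P F (toM' n α))) (p : Principal (LL n P F (toM' n α)))
    (hrk : ∀ i, (F i).isLeft → (F i).rk = 2 ∨ (F i).rk = 4)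
    (hN : ∀ a b : At n K, pl n a ≠ pl n b → IsPl n P F (toM' n α) (pl n a) 4 →
      IsPl n P F (toM' n α) (pl n b) 4 → NoPair n P F (toM' n α) (pl n a) (pl n b))
    (hA' : ∀ b : At n K, IsPl n P F (toM' n α) (pl n b) 4 →
      (n b.1 ≤ 1 ∧ ∀ S : Finset (At n K), (∀ a ∈ S, IsPl n P F (toM' n α) (pl n a) 2 ∧
        KerLe n P F (toM' n α) (pl n b) (pl n a)) → S.card ≤ 2) ∨
      (n b.1 ≤ 2 ∧ ∀ a : At n K, IsPl n P F (toM' n α) (pl n a) 2 →
        ¬ KerLe n P F (toM' n α) (pl n b) (pl n a)))
    {H : GG κ} (hH : IsMT P H) (v w : Fin (2 * k) → HW κ n)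
    (hw : w = fun r => EE n P F (a r) (v r)) :
    ∑ r, α (Function.update w r (lift n H.1 (w r))) =
      (∑ r, chiC P F (pl n (a r)) H) * α w := by
  classical
  obtain ⟨m, x, hx, hxl, hxc⟩ := exists_slots n P F a
  let c : Fin (2 * k) → ℂ := fun r => if (F (a r).1).isLeft then 1 else cvS n P F (a r) (v r)
  have h1 : w = fun r => c r • wS n P F a x (fun j => v (x j)) r := by
    rw [hw]
    funext r
    by_cases hr : ∃ j, x j = r
    · obtain ⟨j, rfl⟩ := hr
      simp only [c]
      rw [if_pos (hxl j), one_smul, wS_self n P F a x hx]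
    · have hr' : ∀ j, x j ≠ r := fun j hj => hr ⟨j, hj⟩
      simp only [c]
      rw [if_neg (hxc r hr'), wS_out n P F a x _ r hr', EE_cm n P F (a r) (hxc r hr')]
  have hsm : ∀ u : Fin (2 * k) → HW κ n, α (fun r => c r • u r) = (∏ r, c r) * α u := fun u =>
    (α : MultilinearMap ℂ (fun _ : Fin (2 * k) => HW κ n) ℂ).map_smul_univ c u
  have h2 := act_wS n P F α a x hx hϖ hB hA hk p hrk hN hA' hH hxl hxc (fun j => v (x j))
  have h3 : ∀ r, α (Function.update w r (lift n H.1 (w r))) = (∏ r, c r) *
      α (Function.update (wS n P F a x (fun j => v (x j))) r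
        (lift n H.1 (wS n P F a x (fun j => v (x j)) r))) := by
    intro r
    rw [← hsm]
    congr 1
    funext s
    by_cases hs : s = r
    · subst hs
      rw [Function.update_self, Function.update_self, h1, map_smul]
    · rw [Function.update_of_ne hs, Function.update_of_ne hs, h1]
  rw [Finset.sum_congr rfl (fun r _ => h3 r), ← Finset.mul_sum, h2, h1, hsm]
  ring

end family

end Pool.Agent.Helper7.HU
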