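import Pool.Agent.Helper7.HU.Setup
import Pool.Agent.Helper7.CP.Balance
import Pool.Agent.Helper7.HU.Labels
import Pool.Agent.Helper8.D.HodgeStep
import Pool.Agent.Helper8.D.Types
import Pool.Agent.Helper8.H.MainH

/-!
The action of the symmetries and of the Hodge element on the components of a Grothendieck class.
-/

set_option linter.unusedSectionVars false

namespace Pool.Agent.Helper7.HU

open Module NumberField LieAlgebra Pool.Agent.Helper7 Pool.Agent.Helper24 Pool.Agent.GPC
open Pool.Agent.Helper8 (exists_principal isDRB_rho endo_cases IsPl zero_of_type finrank_Vs)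
open Pool.Agent.Helper84 (EndK hN_of hA_of2)
open Pool.Agent.Helper8.D (hG hG_sym hG_idem)

attribute [local instance 100] LieRing.ofAssociativeRing

section act

variable {I : Type} [Fintype I] [DecidableEq I] (A : I → AbVar) (n : I → ℕ) (K : I → Type)
  [∀ i, Field (K i)] [∀ i, NumberField (K i)]
  (S U T : Finset I)
  (hST : ∀ i, i ∈ S ∨ i ∈ U ∨ i ∈ T) (hS : ∀ i ∈ S, IsRMType (A i) (K i))
  (hU : ∀ i ∈ U, IsRelTwoType (A i) (K i)) (hC : ∀ i ∈ T, IsCMType (A i) (K i))
  (hc : U = ∅ ∨ RelTwoCond A n K S U)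
  (F : ∀ i, FS (pData (A i)) (K i)) (hF : IsSys A K S U F)
  (k : ℕ) (α : Form A n (2 * k)) (hα : IsGrothendieck A n k α)

include hS hU hc hF hα in
/-- the action of an operator compatible with all de Rham-Betti morphisms on the component at a
label -/
theorem act_label {H : GG (fun i => Fin (A i).g ⊕ Fin (A i).g)}
    (hH : IsMT (fun i => pData (A i)) H) (b : Fin (2 * k) → At n K)
    (v w : Fin (2 * k) → HW (fun i => Fin (A i).g ⊕ Fin (A i).g) n)
    (hw : w = fun r => EE n (fun i => pData (A i)) F (b r) (v r)) :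
    ∑ r, α (Function.update w r (lift n H.1 (w r))) =
      (∑ r, chiC (fun i => pData (A i)) F (pl n (b r)) H) * α w := by
  classical
  obtain ⟨hFl, hFr⟩ := hF
  have hR : ∀ i, i ∈ S ∨ i ∈ U → IsRealType (A i) (K i) := by
    rintro i (hi | hi)
    · obtain ⟨h1, ⟨R⟩⟩ := hS i hi
      exact ⟨h1, ⟨⟨R.ρ, R.one, R.mul, R.add, R.endo, R.rosati, R.centralizer⟩⟩⟩
    · exact (hU i hi).1
  have hdeg : ∀ i, (i ∈ S → finrank ℚ (K i) = (A i).g) ∧
      (i ∈ U → 2 * finrank ℚ (K i) = (A i).g) := by
    intro i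
    refine ⟨fun hi => ?_, fun hi => (hU i hi).2.1⟩
    obtain ⟨h1, ⟨R⟩⟩ := hS i hi
    exact R.degree
  have hpos : ∀ i, 0 < finrank ℚ (K i) := fun i => finrank_pos
  have e2 : ∀ f r g : ℕ, 0 < f → f * r = 2 * g → f = g → r = 2 := by
    intro f r g h1 h2 h3
    subst h3
    exact Nat.eq_of_mul_eq_mul_left h1 (by rw [h2]; ring)
  have e4 : ∀ f r g : ℕ, 0 < f → f * r = 2 * g → 2 * f = g → r = 4 := by
    intro f r g h1 h2 h3
    subst h3
    exact Nat.eq_of_mul_eq_mul_left h1 (by rw [h2]; ring)
  have hrkS : ∀ i ∈ S, (F i).rk = 2 := by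
    intro i hi
    exact e2 _ _ _ (hpos i) (hFr i (Or.inl hi)) ((hdeg i).1 hi)
  have hrkU : ∀ i ∈ U, (F i).rk = 4 := by
    intro i hi
    exact e4 _ _ _ (hpos i) (hFr i (Or.inr hi)) ((hdeg i).2 hi)
  have hB := hB_of A n hα
  have hA : ∀ v : Fin (2 * k) → HW (fun i => Fin (A i).g ⊕ Fin (A i).g) n,
      (∀ r i m j, IsAlgebraic ℚ (v r i m j)) → IsAlgebraic ℚ (α v) := hα.1
  have hϖ := Complex.two_pi_I_ne_zero
  have hrad : HasTrivialRadical ℂ (LL n (fun i => pData (A i)) F (toM' n α)) :=
    LL_trivialRadical n _ F _ hϖ hB hA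
  have hk : IsKilling ℂ (LL n (fun i => pData (A i)) F (toM' n α)) := inferInstance
  obtain ⟨p⟩ := exists_principal (LL n (fun i => pData (A i)) F (toM' n α))
  -- endomorphisms and homomorphisms
  have hg : ∀ i, (i ∈ S ∨ i ∈ U) → 0 < (A i).g := by
    rintro i (hi | hi)
    · rw [← (hdeg i).1 hi]; exact hpos i
    · rw [← (hdeg i).2 hi]; have := hpos i; omega
  have hFρ : ∀ i, ∀ x, IsDRB (pData (A i)) (pData (A i)) ((F i).ρ x) := fun i x =>
    isDRB_rho (F i) x
  have hEU : ∀ i ∈ U, EndK (fun i => pData (A i)) F i := by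
    intro i hi
    exact (endo_cases (A i) (hg i (Or.inr hi)) (K i) (F i).ρ (hFρ i) _ (hU i hi).2.2).2.1 le_rfl
  have hUne : ∀ i, (F i).isLeft → (F i).rk = 4 → i ∈ U := by
    intro i hi h4
    rcases (hFl i).mp hi with h1 | h1
    · rw [hrkS i h1] at h4; omega
    · exact h1
  have hSne : ∀ i, (F i).isLeft → (F i).rk = 2 → i ∈ S := by
    intro i hi h4
    rcases (hFl i).mp hi with h1 | h1
    · exact h1
    · rw [hrkU i h1] at h4; omega
  have hfr : ∀ s : Emb K, (F s.1).isLeft → finrank ℂ (Vs n (fun i => pData (A i)) F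
      (toM' n α) s) = (F s.1).rk := fun s hs => finrank_Vs s hs
  have hpl4 : ∀ s : Emb K, IsPl n (fun i => pData (A i)) F (toM' n α) s 4 → s.1 ∈ U := by
    intro s hs
    refine hUne s.1 hs.1 ?_
    rw [← hfr s hs.1]
    exact hs.2
  have hn0 : ∀ a : At n K, n a.1 ≠ 0 := fun a h0 => by
    have := a.2.1.2
    omega
  have hpair : RelTwoCond A n K S U → (∀ i j, i ≠ j → (F i).isLeft → (F j).isLeft → n i ≠ 0 →
      n j ≠ 0 → ∀ g, IsDRB (pData (A i)) (pData (A j)) g → g = 0) := by
    intro hc i j hij hi hj h1 h2 g hg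
    apply LinearMap.ext
    intro v
    have h3 := (isDRB_iff (A i) (A j) g).mp hg
    exact hc.hom_zero i j ((hFl i).mp hi) ((hFl j).mp hj) h1 h2 hij g
      ⟨g.isLinear, h3.1, h3.2, hom_fil (A i) (A j) g g.isLinear h3.1 h3.2⟩ v
  have hlink : RelTwoCond A n K S U → (∀ i, (F i).isLeft → (F i).rk = 4 → n i ≠ 0 → n i ≤ 2 ∧
      ∀ j, (F j).isLeft → (F j).rk = 2 → n j ≠ 0 →
        IsEmpty (K i →+* K j) ∨ (EndK (fun i => pData (A i)) F j ∧ IsEmpty (K i ≃+* K j)) ∨
          (n i ≤ 1 ∧ ((n j ≤ 2 ∧ EndK (fun i => pData (A i)) F j) ∨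
          (n j ≤ 1 ∧ ∃ g0 : Module.End ℂ (Fin (A j).g ⊕ Fin (A j).g → ℂ),
            ∀ g, IsDRB (pData (A j)) (pData (A j)) g →
              ∃ x y : K j, ∀ v, g v = (F j).ρ x v + g0 ((F j).ρ y v))))) := by
    intro hc i hi h4 hn
    have hiU := hUne i hi h4
    refine ⟨hc.mult i hiU, fun j hj h2 hnj => ?_⟩
    have hjS := hSne j hj h2
    rcases hc.link i hiU j hjS hn hnj with h1 | ⟨h1, h5⟩ | ⟨h1, d, hd, h5⟩
    · exact Or.inl h1
    · exact Or.inr (Or.inl ⟨(endo_cases (A j) (hg j (Or.inl hjS)) (K j) (F j).ρ (hFρ j) _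
        h1).2.1 ((hdeg j).1 hjS).ge, h5⟩)
    · right
      right
      refine ⟨h1, ?_⟩
      obtain ⟨h6, h7, h8⟩ := endo_cases (A j) (hg j (Or.inl hjS)) (K j) (F j).ρ (hFρ j) d hd
      have h9 := (hdeg j).1 hjS
      have h10 := hg j (Or.inl hjS)
      rw [← h9] at h5 h10
      have hle2 : n j ≤ 2 := by
        by_contra hcon
        have h11 : 3 * d ≤ n j * d := Nat.mul_le_mul_right d (by omega)
        omega
      rcases Nat.lt_or_ge (n j) 2 with h12 | h12
      · right
        have h13 : n j = 1 := by omega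
        rw [h13, one_mul] at h5
        exact ⟨h13.le, h8 h5⟩
      · left
        have h13 : n j = 2 := le_antisymm hle2 h12
        rw [h13] at h5
        exact ⟨hle2, h7 (by omega)⟩
  refine label_act n (fun i => pData (A i)) F α b hϖ hB hA hk p ?_ ?_ ?_ hH v w hw
  · intro i hi
    rcases (hFl i).mp hi with h3 | h3
    · exact Or.inl (hrkS _ h3)
    · exact Or.inr (hrkU _ h3)
  · intro a b hab ha hb
    rcases hc with hc | hc
    · have := hpl4 _ ha
      rw [hc] at this
      exact absurd this (Finset.notMem_empty _)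
    · exact hN_of n _ F _ hϖ hB hA (fun i h1 h2 _ => hEU i (hUne i h1 h2)) (hpair hc) _ _
        (hn0 a) (hn0 b) hab ha hb
  · intro b hb
    rcases hc with hc | hc
    · have := hpl4 _ hb
      rw [hc] at this
      exact absurd this (Finset.notMem_empty _)
    · exact hA_of2 n _ F _ hϖ hB hA hk p (fun i h1 h2 _ => hEU i (hUne i h1 h2)) (hpair hc)
        (hlink hc) b hb

lemma isMT_of_isInv {X : GG (fun i => Fin (A i).g ⊕ Fin (A i).g)}
    (hX : IsInv n (fun i => pData (A i)) (toM' n α) X) : IsMT (fun i => pData (A i)) X where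
  comm i j f hf v := hX.comm i j f hf v
  pol i u v := hX.pol i u v

include hS hU hc hF hα in
/-- the total weight of a symmetry at a label at which the form does not vanish -/
theorem weight_label {X : GG (fun i => Fin (A i).g ⊕ Fin (A i).g)}
    (hX : IsInv n (fun i => pData (A i)) (toM' n α) X) (b : Fin (2 * k) → At n K)
    (v : Fin (2 * k) → HW (fun i => Fin (A i).g ⊕ Fin (A i).g) n)
    (hv : α (fun r => EE n (fun i => pData (A i)) F (b r) (v r)) ≠ 0) :
    ∑ r, chiC (fun i => pData (A i)) F (pl n (b r)) X = k * X.2 := by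
  have h1 := act_label A n K S U hS hU hc F hF k α hα (isMT_of_isInv A n k α hX) b v _ rfl
  have h2 := congrArg (fun g => g (fun r => EE n (fun i => pData (A i)) F (b r) (v r))) hX.form
  simp only [actForm_apply, _root_.smul_apply, smul_eq_mul] at h2
  exact mul_right_cancel₀ hv (h1.symm.trans h2)

include hS hU hc hF hα in
/-- a Grothendieck class is a Hodge class if the total weight of the Hodge element is `k` at all
labels at which the form does not vanish -/
theorem hodge_of_lab
    (hlab : ∀ (b : Fin (2 * k) → At n K)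
      (v : Fin (2 * k) → HW (fun i => Fin (A i).g ⊕ Fin (A i).g) n),
      α (fun r => EE n (fun i => pData (A i)) F (b r) (v r)) ≠ 0 →
      ∑ r, chiC (fun i => pData (A i)) F (pl n (b r)) (hG A) = k) : IsHodge A n k α := by
  classical
  refine ⟨hα.2, fun v J hJ hv => ?_⟩
  have h1 : actForm (lift n (hG A).1) (toM' n α) = (k : ℂ) • (toM' n α) := by
    apply MultilinearMap.ext
    intro v
    rw [actForm_apply, _root_.smul_apply, smul_eq_mul]
    have h2 : ∀ u : Fin (2 * k) → HW (fun i => Fin (A i).g ⊕ Fin (A i).g) n,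
        α u = ∑ b : Fin (2 * k) → At n K,
          α (fun r => EE n (fun i => pData (A i)) F (b r) (u r)) := fun u =>
      Pool.Agent.Helper8.sum_labels α u
    have h3 : ∀ r, α (Function.update v r (lift n (hG A).1 (v r))) =
        ∑ b : Fin (2 * k) → At n K,
          α (Function.update (fun s => EE n (fun i => pData (A i)) F (b s) (v s)) r
            (lift n (hG A).1 (EE n (fun i => pData (A i)) F (b r) (v r)))) := by
      intro r
      rw [h2]
      refine Finset.sum_congr rfl fun b _ => ?_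
      congr 1
      funext s
      by_cases hs : s = r
      · subst hs
        rw [Function.update_self, Function.update_self,
          EE_comm n (fun i => pData (A i)) F (hG A) (isMT_hG A)]
      · rw [Function.update_of_ne hs, Function.update_of_ne hs]
    show ∑ r, α (Function.update v r (lift n (hG A).1 (v r))) = k * α v
    rw [Finset.sum_congr rfl fun r _ => h3 r, Finset.sum_comm, h2 v, Finset.mul_sum]
    refine Finset.sum_congr rfl fun b _ => ?_
    have h4 := act_label A n K S U hS hU hc F hF k α hα (isMT_hG A) b v _ rfl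
    rw [h4]
    by_cases h5 : α (fun r => EE n (fun i => pData (A i)) F (b r) (v r)) = 0
    · rw [h5, mul_zero, mul_zero]
    · rw [hlab b v h5]
  refine zero_of_type _ (lift n (hG A).1) (fun w => ?_) h1 v J hJ (fun r hr => ?_)
  · funext i m
    rw [lift_apply, lift_apply]
    exact hG_idem A i _
  · funext i m
    rw [lift_apply]
    exact (hod_fil (A i)).mp (hv r hr i m)

lemma chiC_hG_conj (t : Emb K) :
    chiC (fun i => pData (A i)) F t (hG A) + chiC (fun i => pData (A i)) F (conjT t) (hG A) = 1 :=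
  (F t.1).chi_conj _ _ (fun x v => (isMT_hG A).comm t.1 t.1 _ ((F t.1).hρ x) v)
    ((isMT_hG A).pol t.1) t.2

include hS hU hC hST hc hF hα in
/-- a Grothendieck class is a Hodge class if all relations between the weights of the factors of CM
type are balanced -/
theorem hodge_of_rel
    (hrel : ∀ z : Emb K → ℤ, (∀ t, z (conjT t) = - z t) → (∀ t, (F t.1).isLeft → z t = 0) →
      (∀ X, IsInv n (fun i => pData (A i)) (toM' n α) X →
        ∑ t, (z t : ℂ) * chiC (fun i => pData (A i)) F t X = 0) →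
      ∑ t, (z t : ℂ) * chiC (fun i => pData (A i)) F t (hG A) = 0) : IsHodge A n k α := by
  classical
  refine hodge_of_lab A n K S U hS hU hc F hF k α hα fun b v hv => ?_
  have hcx : ∀ i, ¬ (F i).isLeft → ∀ σ : K i →+* ℂ, ComplexEmbedding.conjugate σ ≠ σ := by
    intro i hi σ hσ
    have hiT : i ∈ T := by
      rcases hST i with h1 | h1 | h1
      · exact absurd ((hF.left i).mpr (Or.inl h1)) hi
      · exact absurd ((hF.left i).mpr (Or.inr h1)) hi
      · exact h1
    have := (hC i hiT).choose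
    exact IsTotallyComplex.complexEmbedding_not_isReal σ (ComplexEmbedding.isReal_iff.mpr hσ)
  exact Pool.Agent.Helper8.E.CP.balance2 (fun i => ¬ (F i).isLeft) hcx
    (G := {X : GG (fun i => Fin (A i).g ⊕ Fin (A i).g) //
      IsInv n (fun i => pData (A i)) (toM' n α) X})
    (fun t X => chiC (fun i => pData (A i)) F t X.1) (fun X => X.1.2)
    (fun t X => chiC_conj n (fun i => pData (A i)) F (toM' n α) t X.1 X.2)
    (fun t X ht => chiC_left (fun i => pData (A i)) F X.1 t (not_not.mp ht)) b
    (fun X => weight_label A n K S U hS hU hc F hF k α hα X.2 b v hv)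
    (fun t => chiC (fun i => pData (A i)) F t (hG A))
    (fun z hz1 hz2 hz3 => hrel z hz1 (fun t ht => hz2 t (not_not.mpr ht))
      (fun X hX => hz3 ⟨X, hX⟩)) (fun t => chiC_hG_conj A K F t)
    (fun t ht => chiC_left (fun i => pData (A i)) F (hG A) t (not_not.mp ht))

end act

end Pool.Agent.Helper7.HU
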