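import Pool.Agent.Helper7.SmallG

/-!
Slot functions all of whose labels are of real type with spaces of dimension two.
-/

namespace Pool.Agent.Helper7.HU

open Module NumberField LieAlgebra

attribute [local instance 100] LieRing.ofAssociativeRing

open Pool.Agent.GPC (Emb IsOdd)
open Pool.Agent.Helper7
open Pool.Agent.Helper8 (Symp Principal SF SF0 PS symG perfect_of_killing)

set_option linter.unusedSectionVars false

section family

variable {I : Type} [Fintype I] [DecidableEq I] (n : I → ℕ)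
  {κ : I → Type} [∀ i, Fintype (κ i)] [∀ i, DecidableEq (κ i)] {ϖ : ℂ}
  (P : ∀ i, PData (κ i) ϖ)
  {K : I → Type} [∀ i, Field (K i)] [∀ i, NumberField (K i)]
  (F : ∀ i, FS (P i) (K i))
  {k : ℕ} (α : MultilinearMap ℂ (fun _ : Fin (2 * k) => HW κ n) ℂ)
  (ok : I → Prop)
  (b : ∀ s : Emb K, ok s.1 → (F s.1).isLeft → Basis (Fin 2) ℂ (Vs n P F α s))
  (hsj : ∀ s : Emb K, ok s.1 → (F s.1).isLeft → ∀ Y : Module.End ℂ (Vs n P F α s),
    LinearMap.trace ℂ _ Y = 0 → ∃ X, IsInv n P α X ∧ actV n P F α s (X.1 s.1) = Y)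
  (htr : ∀ s : Emb K, ok s.1 → (F s.1).isLeft → ∀ X, IsInv n P α X →
    LinearMap.trace ℂ _ (actV n P F α s (X.1 s.1)) = X.2)

include b hsj htr in
theorem real_core (hl : ∀ i, ok i → (F i).isLeft)
    {R : Type*} [DecidableEq R] {T : Finset R} {q : R → At n K} {Φ : (R → HW κ n) → ℂ}
    (hev : Even T.card) (hΦ : SF (symG n P α) (EE n P F) q T Φ) (hq : ∀ r ∈ T, ok (q r).1) :
    Φ ∈ PS (invB n P α) T := by
  classical
  obtain ⟨m, hm⟩ := hev
  have hcard : T.card = 2 * m := by omega
  obtain ⟨x, hx, hxT, himg⟩ : ∃ x : Fin (2 * m) → R, Function.Injective x ∧ (∀ a, x a ∈ T) ∧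
      Finset.univ.image x = T := by
    let e := (Finset.equivFinOfCardEq hcard).symm
    refine ⟨fun a => (e a : R), fun a c h => e.injective (Subtype.ext h), fun a => (e a).2, ?_⟩
    ext r
    rw [Finset.mem_image]
    constructor
    · rintro ⟨a, -, rfl⟩; exact (e a).2
    · intro hr
      exact ⟨e.symm ⟨r, hr⟩, Finset.mem_univ _, by rw [Equiv.apply_symm_apply]⟩
  have h0 : SF0 (EE n P F) q T Φ := hΦ.toSF0
  obtain ⟨M, hM⟩ : ∃ M, M = slotM h0 (W2 n P F ok) x hx hxT := ⟨_, rfl⟩
  have hMa : ∀ v, M v = Φ (Function.extend x (fun a => (v a : HW κ n)) 0) := by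
    intro v; rw [hM]; rfl
  set S' := preSmall n P F α ok b hsj htr with hS'
  set S := S'.toFrames with hS
  have hspan : M ∈ Submodule.span ℂ (S.invProd m) := by
    refine S.main_fft M ?_ ?_
    · intro X v
      have h1 := hΦ.inv (lift n X.1.1, X.1.2) ⟨X.1, X.2, rfl⟩
        (Function.extend x (fun a => (v a : HW κ n)) 0)
      have h2 : ∑ t ∈ T, Φ (Function.update (Function.extend x (fun a => (v a : HW κ n)) 0) t
          (lift n X.1.1 (Function.extend x (fun a => (v a : HW κ n)) 0 t))) =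
          ∑ r, M (Function.update v r (S.L X (v r))) := by
        rw [← himg, Finset.sum_image (fun a _ c _ h => hx h)]
        refine Finset.sum_congr rfl fun r _ => ?_
        rw [hMa, coe_update, extend_update x hx, hx.extend_apply]
        rfl
      have h3 : S.c X = X.1.2 := rfl
      beta_reduce at h1
      rw [h2, hcard] at h1
      rw [h3, hMa]
      push_cast at h1
      linear_combination h1 / 2
    · rintro p - - - t ht
      exact absurd (hl _ t.2) ht
  -- back to slot functions
  let P2' : HW κ n →ₗ[ℂ] W2 n P F ok := (P2 n P F ok).codRestrict _ (P2_mem n P F ok)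
  have hP2' : ∀ u, ((P2' u : W2 n P F ok) : HW κ n) = P2 n P F ok u := fun u => rfl
  have hback : ∀ v, Φ v = M (fun a => P2' (v (x a))) := by
    intro v
    rw [hMa, ← SF0_proj h0 (P2 n P F ok) (fun r hr u => EE_P2 n P F ok (q r) (hq r hr) u) v]
    refine h0.dep _ _ fun r hr => ?_
    rw [← himg, Finset.mem_image] at hr
    obtain ⟨a, -, rfl⟩ := hr
    rw [hx.extend_apply]
    rfl
  have hgen : ∀ N ∈ Submodule.span ℂ (S.invProd m),
      (fun v : R → HW κ n => N (fun a => P2' (v (x a)))) ∈ PS (invB n P α) T := by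
    intro N hN
    refine Submodule.span_induction (p := fun N _ =>
      (fun v : R → HW κ n => N (fun a => P2' (v (x a)))) ∈ PS (invB n P α) T) ?_ ?_ ?_ ?_ hN
    · rintro _ ⟨π, β, hβ, rfl⟩
      apply Submodule.subset_span
      have h1 := PP_of_prod (𝓑 := invB n P α) (fun a => x (π a))
        (fun a c h => π.injective (hx h)) (fun a => (β a).compl₁₂ P2' P2') (fun a => by
          intro X hX u v
          have h2 := hβ a ⟨X, hX⟩ (P2' u) (P2' v)
          have h3 : ∀ u, P2' (lift n X.1 u) = S.L ⟨X, hX⟩ (P2' u) := by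
            intro u
            apply Subtype.ext
            exact P2_lift n P F α ok X hX u
          rw [LinearMap.compl₁₂_apply, LinearMap.compl₁₂_apply, LinearMap.compl₁₂_apply, h3, h3]
          exact h2)
      have h4 : Finset.univ.image (fun a => x (π a)) = T := by
        rw [← himg]
        ext r
        simp only [Finset.mem_image, Finset.mem_univ, true_and]
        constructor
        · rintro ⟨a, rfl⟩; exact ⟨_, rfl⟩
        · rintro ⟨a, rfl⟩; exact ⟨π.symm a, by rw [Equiv.apply_symm_apply]⟩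
      rw [h4] at h1
      exact h1
    · exact Submodule.zero_mem _
    · intro N N' _ _ h1 h2
      exact Submodule.add_mem _ h1 h2
    · intro c N _ h1
      exact Submodule.smul_mem _ c h1
  have h1 : Φ = fun v => M (fun a => P2' (v (x a))) := funext hback
  rw [h1]
  exact hgen M hspan

end family

section fft

variable {I : Type} [Fintype I] [DecidableEq I] (n : I → ℕ)
  {κ : I → Type} [∀ i, Fintype (κ i)] [∀ i, DecidableEq (κ i)] {ϖ : ℂ}
  (P : ∀ i, PData (κ i) ϖ)
  {K : I → Type} [∀ i, Field (K i)] [∀ i, NumberField (K i)]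
  (F : ∀ i, FS (P i) (K i))
  {k : ℕ} (α : MultilinearMap ℂ (fun _ : Fin (2 * k) => HW κ n) ℂ)
  (ok : I → Prop)
  (hϖ : ϖ ≠ 0)
  (hB : ∀ v : Fin (2 * k) → HW κ n, (∀ r, IsRatP n P (v r)) → ∃ q : ℚ, α v = ϖ ^ k * q)
  (hA : ∀ v : Fin (2 * k) → HW κ n, (∀ r i m j, IsAlgebraic ℚ (v r i m j)) →
      IsAlgebraic ℚ (α v))

include hϖ hB hA in
/-- slot functions all of whose labels have spaces of dimension at most two -/
theorem real_fft (hk : IsKilling ℂ (LL n P F α)) (p : Principal (LL n P F α))
    (h2 : ∀ s : Emb K, ok s.1 → (F s.1).isLeft → finrank ℂ (Vs n P F α s) = 2)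
    (hl : ∀ i, ok i → (F i).isLeft)
    {R : Type*} [DecidableEq R] {T : Finset R} {q : R → At n K} {Φ : (R → HW κ n) → ℂ}
    (hev : Even T.card) (hΦ : SF (symG n P α) (EE n P F) q T Φ) (hq : ∀ r ∈ T, ok (q r).1) :
    Φ ∈ PS (invB n P α) T := by
  classical
  have hskew : ∀ s : Emb K, (F s.1).isLeft → ∀ X hX,
      LinearMap.trace ℂ (Vs n P F α s)
        (LieModule.toEnd ℂ (LL n P F α) (Vs n P F α s) (elL n P F α X hX)) = 0 := by
    intro s hs X hX
    exact trace_skew (omV n P F α s) (omV_symp n P F α s hs).nd _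
      (fun a b => (omV_symp n P F α s hs).inv _ a b)
  refine real_core n P F α ok
    (fun s hs hl => Module.finBasisOfFinrankEq ℂ (Vs n P F α s) (h2 s hs hl)) ?_ ?_ hl hev hΦ
    hq
  · intro s hs hl Y hY
    have hn : Nontrivial (Vs n P F α s) := by
      apply Module.finrank_pos_iff (R := ℂ).mp
      rw [h2 s hs hl]; norm_num
    have hirr := Vs_irr n P F α hϖ hB hA s hl hn
    obtain ⟨a, ha⟩ := surj_dim2 p (omV_symp n P F α s hl) (h2 s hs hl) Y hY
    obtain ⟨X, hX, rfl, hX2, -⟩ := perfect_lift n P F α hk a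
    refine ⟨X, hX, ?_⟩
    apply LinearMap.ext
    intro x
    rw [actV_real n P F α s hl X hX, hX2, zero_div, zero_smul, add_zero, ha]
  · intro s hs hl X hX
    have h3 : actV n P F α s (X.1 s.1) =
        LieModule.toEnd ℂ (LL n P F α) (Vs n P F α s) (elL n P F α X hX) +
          (X.2 / 2) • (1 : Module.End ℂ (Vs n P F α s)) := by
      apply LinearMap.ext
      intro x
      rw [actV_real n P F α s hl X hX]
      rfl
    rw [h3, map_add, hskew s hl X hX, map_smul, LinearMap.trace_one, h2 s hs hl, smul_eq_mul]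
    push_cast
    ring

end fft

end Pool.Agent.Helper7.HU
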