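import Pool.Agent.Helper7.HU.Setup
import Pool.Agent.Helper7.CP.Per
import Pool.Agent.Helper24.PT.PMain

/-!
The weights of a factor of CM type in terms of adapted coordinates.
-/

set_option linter.unusedSectionVars false

namespace Pool.Agent.Helper7.HU

open Module NumberField LieAlgebra Pool.Agent.Helper7 Pool.Agent.Helper24 Pool.Agent.GPC

attribute [local instance 100] LieRing.ofAssociativeRing

section single

variable (A : AbVar) (K : Type) [Field K] [NumberField K]

theorem exists_UF_fac (F : Fac (pData A) K) (hd : finrank ℚ K = 2 * A.g) :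
    ∃ G : UF (pData A) K 1, ∀ x v, G.ρ x v = F.ρ x v := by
  have hQ : ∀ x, ∀ v ∈ (pData A).Q, F.ρ x v ∈ (pData A).Q :=
    fun x v hv => (F.hρ x).rat v hv
  obtain ⟨lam, h1, h2, eb, h3⟩ := exists_Kbasis (pData A) F.ρ hQ 1
    (by rw [hd, card_index, mul_one])
  exact ⟨{  ρ := F.ρ
            hρ := F.hρ
            cc := F.cc
            hcc := F.hcc
            hros := F.hros
            hcen := fun f hf hc => cen_one (pData A) F.ρ lam h1 h2 f hf hc
            hnd := hnd_pData A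
            lam := lam
            lam_rat := h1
            gen := h2
            eb := eb
            heb := h3 }, fun x v => rfl⟩

/-- the weights of a factor of CM type -/
theorem exists_UF_chi (f : FS (pData A) K) (hf : ¬ f.isLeft) (hd : finrank ℚ K = 2 * A.g) :
    ∃ G : UF (pData A) K 1, (∀ x v, G.ρ x v = f.ρ x v) ∧
      ∀ (σ : K →+* ℂ) (X : Module.End ℂ (Fin A.g ⊕ Fin A.g → ℂ)) (c : ℂ),
        (∀ x v, X (f.ρ x v) = f.ρ x (X v)) → f.chi σ X c = tw G σ X := by
  classical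
  cases f with
  | inl F' => exact absurd rfl hf
  | inr F' =>
    obtain ⟨G, hG⟩ := exists_UF_fac A K F'.1 hd
    have hρ : G.ρ = F'.1.ρ := RingHom.ext fun x => LinearMap.ext fun v => hG x v
    refine ⟨G, hG, fun σ X c hX => ?_⟩
    have hX1 : F'.1.Comm X := hX
    have hX2 : G.Comm X := fun x v => by rw [hG, hG]; exact hX x v
    -- the eigenvector of `G` is in the eigenspace of `F'`
    have h1 : X (G.e σ 0) = tw G σ X • G.e σ 0 :=
      act_one G _ hX2 σ
    have h2 : G.e σ 0 = F'.1.lf.co σ 0 (G.e σ 0) • F'.1.e σ 0 := by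
      have h3 : G.e σ 0 = proj F'.1.ρ σ (G.e σ 0) := by
        rw [← hρ, G.proj_e, if_pos rfl]
      have h4 := F'.1.proj_eq σ (G.e σ 0)
      rw [Fin.sum_univ_two, F'.1.e_one F'.2, smul_zero, add_zero, ← h3] at h4
      exact h4
    have h3 : X (F'.1.e σ 0) = F'.1.mat σ X 0 0 • F'.1.e σ 0 := by
      have h4 := Fac.Comm.act (F := F'.1) hX1 σ 0
      rw [Fin.sum_univ_two, F'.1.e_one F'.2, smul_zero, add_zero] at h4
      exact h4
    have h5 : X (G.e σ 0) = F'.1.mat σ X 0 0 • G.e σ 0 := by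
      conv_lhs => rw [h2]
      rw [map_smul, h3, smul_comm, ← h2]
    have h6 : (F'.1.mat σ X 0 0 - tw G σ X) • G.e σ 0 = 0 := by
      rw [sub_smul, ← h5, ← h1, sub_self]
    exact sub_eq_zero.mp ((smul_eq_zero.mp h6).resolve_right (e_ne G σ 0))

end single

section family

variable {I : Type} [Fintype I] [DecidableEq I] (n : I → ℕ)
  {κ : I → Type} [∀ i, Fintype (κ i)] [∀ i, DecidableEq (κ i)] {ϖ : ℂ}
  (P : ∀ i, PData (κ i) ϖ)
  {K : I → Type} [∀ i, Field (K i)] [∀ i, NumberField (K i)]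
  (F : ∀ i, FS (P i) (K i))
  {k : ℕ} (α : MultilinearMap ℂ (fun _ : Fin (2 * k) => HW κ n) ℂ)
  (hϖ : ϖ ≠ 0)
  (hB : ∀ v : Fin (2 * k) → HW κ n, (∀ r, IsRatP n P (v r)) → ∃ q : ℚ, α v = ϖ ^ k * q)
  (hA : ∀ v : Fin (2 * k) → HW κ n, (∀ r i m j, IsAlgebraic ℚ (v r i m j)) →
      IsAlgebraic ℚ (α v))

include hϖ hB in
/-- relations for the rational symmetries are relations for all symmetries -/
lemma rel_of_rat (z : Emb K → ℂ)
    (h : ∀ X, IsInv n P α X → IsRatl P X → ∑ t, z t * chiC P F t X = 0) (X : GG κ)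
    (hX : IsInv n P α X) : ∑ t, z t * chiC P F t X = 0 := by
  have h3 := mem_span_of_isInv n P α hϖ hB X hX
  refine Submodule.span_induction (p := fun X _ => ∑ t, z t * chiC P F t X = 0)
    ?_ ?_ ?_ ?_ h3
  · rintro Y ⟨hY, hYr⟩
    exact h Y hY hYr
  · exact h 0 (IsInv.zero n P _) ⟨fun i v hv => by
      show (0 : κ i → ℂ) ∈ (P i).Q
      exact Submodule.zero_mem _, 0, by simp⟩
  · intro Y Z _ _ hY hZ
    have e1 : ∀ t, chiC P F t (Y + Z) = chiC P F t Y + chiC P F t Z := fun t =>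
      (F t.1).chi_add t.2 (Y.1 t.1) (Z.1 t.1) Y.2 Z.2
    simp only [e1, mul_add, Finset.sum_add_distrib]
    rw [hY, hZ, add_zero]
  · intro c Y _ hY
    have e1 : ∀ t, chiC P F t (c • Y) = c * chiC P F t Y := fun t =>
      (F t.1).chi_smul t.2 (Y.1 t.1) c Y.2
    simp only [e1]
    have e2 : ∑ t, z t * (c * chiC P F t Y) = c * ∑ t, z t * chiC P F t Y := by
      rw [Finset.mul_sum]
      exact Finset.sum_congr rfl fun t _ => by ring
    rw [e2, hY, mul_zero]

include hϖ hB in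
/-- the conjugates of a relation are relations -/
theorem rel_conj (hre : ∀ i, (F i).isLeft → ∀ σ : K i →+* ℂ, ComplexEmbedding.conjugate σ = σ)
    (z : Emb K → ℤ) (hz : ∀ t, z (conjT t) = - z t)
    (hzX : ∀ X, IsInv n P α X → ∑ t, (z t : ℂ) * chiC P F t X = 0)
    (τ : ℂ ≃+* ℂ) (X : GG κ) (hX : IsInv n P α X) :
    ∑ t, (z (actT τ t) : ℂ) * chiC P F t X = 0 := by
  have hmem : (fun t : Emb K => (z t : ℚ)) ∈ relS n P F α := by
    rw [mem_relS]
    refine ⟨fun i σ => ?_, fun X hX _ => ?_⟩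
    · have h1 := hz ⟨i, σ⟩
      have h2 : z ⟨i, ComplexEmbedding.conjugate σ⟩ = - z ⟨i, σ⟩ := h1
      beta_reduce
      rw [h2]
      push_cast
      ring
    · have h1 := hzX X hX
      rw [← h1]
      refine Finset.sum_congr rfl fun t _ => ?_
      rw [Rat.cast_intCast]
  have hst := (mem_relS n P F α _).mp ((relS_odd n P F α hre _ hmem).2 τ)
  refine rel_of_rat n P F α hϖ hB (fun t => (z (actT τ t) : ℂ)) (fun X hX hr => ?_) X hX
  have h1 := hst.2 X hX hr
  refine (Finset.sum_congr rfl fun t _ => ?_).trans h1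
  exact congrArg (fun c => c * chiC P F t X) (Rat.cast_intCast (z (actT τ t))).symm

end family

end Pool.Agent.Helper7.HU
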